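import Pool.Agent.helper55.NM.Spec

/-!
# BB: part (B) (project NM, second prover)
-/

set_option autoImplicit false

namespace Pool.Agent.helper63.NM

open Pool.Agent.NM Finset Nat

open Classical in
theorem BB (hCNT : CNT_stmt) (hPTB : PTB_stmt) (hTRV : TRV_stmt) (hBAD : BAD_stmt)
    (hASY : ASY_stmt) : BB_stmt := by
  intro ε p hε hp
  obtain ⟨L, n0, h0⟩ := hASY ε p hε
  refine ⟨n0, ?_⟩
  intro q k hn hr1 hr2 X y hX hy
  obtain ⟨h1, h2, h3, h4, h5, h6⟩ := h0 q k hn hr1 hr2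
  have hcnt := hCNT p q k X y
  have hbad := hBAD q k (p + L) (p + 1) y hy h2 (by omega) h1
  obtain ⟨B, hB⟩ : ∃ B, B = univ.filter (fun τ : Equiv.Perm (Fin q) =>
    Yp y τ k ≤ ((p + 1 : ℕ) : ℝ) * (Yp y τ k - Yp y τ (k - (p + L)))) := ⟨_, rfl⟩
  rw [← hB] at hbad
  obtain ⟨r, hr⟩ : ∃ r : ℝ, r = (k : ℝ) / ((p : ℝ) + q) := ⟨_, rfl⟩
  rw [← hr] at h6 hr1 hr2
  obtain ⟨D, hD⟩ : ∃ D : ℝ, D = 1 - (p : ℝ) ^ 2 / ((p : ℝ) + q) := ⟨_, rfl⟩
  rw [← hD] at h6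
  obtain ⟨A, hA⟩ : ∃ A : ℝ, A = (1 - ε) * (2 * r * (1 - r)) + (1 - 2 * ε) ^ L := ⟨_, rfl⟩
  rw [← hA] at h6
  have hpq : (0 : ℝ) < (p : ℝ) + q := by
    have h7 : (3 : ℝ) ≤ (p : ℝ) := by exact_mod_cast hp
    have h8 : (0 : ℝ) ≤ (q : ℝ) := Nat.cast_nonneg q
    linarith
  have hD0 : 0 < D := by
    rw [hD, sub_pos, div_lt_one hpq]
    exact_mod_cast h4
  have hε2 : ε ≤ 1 / 12 := by linarith
  have hA0 : 0 ≤ A := by
    rw [hA]
    have e1 : 0 ≤ (1 - 2 * ε) ^ L := pow_nonneg (by linarith) L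
    have e2 : 0 ≤ (1 - ε) * (2 * r * (1 - r)) := by
      apply mul_nonneg (by linarith)
      apply mul_nonneg
      · linarith
      · linarith
    linarith
  -- good orders
  have hgood : ∀ τ : Equiv.Perm (Fin q), τ ∉ B →
      (Wt X y k τ : ℝ) ≤ A / D * ((p + q).choose k : ℝ) := by
    intro τ hτ
    have h7 := hPTB p q k L X y ε τ hX hy hp hε h1 (by omega) h4 (by rw [← hr]; exact hr1)
      (by rw [← hr]; exact hr2) h5 (by
        intro h8
        apply hτ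
        rw [hB, mem_filter]
        exact ⟨mem_univ _, h8⟩)
    rw [← hr, ← hD, ← hA] at h7
    rw [div_mul_eq_mul_div, le_div_iff₀ hD0]
    linarith
  have hall : ∀ τ : Equiv.Perm (Fin q), (Wt X y k τ : ℝ) ≤ 2 ^ p * (q.choose k : ℝ) := by
    intro τ
    exact_mod_cast hTRV p q k X y τ hy h3
  -- the sum
  have hq0 : (0 : ℝ) < (q ! : ℝ) := by exact_mod_cast Nat.factorial_pos q
  have hk0 : (0 : ℝ) < (k : ℝ) := by exact_mod_cast h2
  have hsum : ((ZS X y k).card : ℝ) * (q ! : ℝ) = ∑ τ : Equiv.Perm (Fin q), (Wt X y k τ : ℝ) := by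
    exact_mod_cast hcnt
  have hg0 : 0 ≤ A / D * ((p + q).choose k : ℝ) := by positivity
  have hpt : ∀ τ : Equiv.Perm (Fin q), (Wt X y k τ : ℝ) ≤ A / D * ((p + q).choose k : ℝ) +
      (if τ ∈ B then 2 ^ p * (q.choose k : ℝ) else 0) := by
    intro τ
    by_cases h : τ ∈ B
    · rw [if_pos h]
      have := hall τ
      linarith
    · rw [if_neg h]
      have := hgood τ h
      linarith
  have hle : ∑ τ : Equiv.Perm (Fin q), (Wt X y k τ : ℝ) ≤
      (q ! : ℝ) * (A / D * ((p + q).choose k : ℝ)) + (B.card : ℝ) * (2 ^ p * (q.choose k : ℝ)) := by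
    refine (Finset.sum_le_sum fun τ _ => hpt τ).trans (le_of_eq ?_)
    rw [Finset.sum_add_distrib, Finset.sum_const, Finset.card_univ, Fintype.card_perm,
      Fintype.card_fin, nsmul_eq_mul, ← Finset.sum_filter, Finset.sum_const, nsmul_eq_mul]
    congr 3
    rw [Finset.filter_mem_eq_inter, Finset.univ_inter]
  have hBk : (B.card : ℝ) ≤ ((p + 1 : ℕ) : ℝ) * ((p + L : ℕ) : ℝ) / k * (q ! : ℝ) := by
    rw [div_mul_eq_mul_div, le_div_iff₀ hk0]
    exact_mod_cast hbad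
  have hBk2 : (B.card : ℝ) * (2 ^ p * (q.choose k : ℝ)) ≤
      ((p + 1 : ℕ) : ℝ) * ((p + L : ℕ) : ℝ) / k * (q ! : ℝ) * (2 ^ p * (q.choose k : ℝ)) :=
    mul_le_mul_of_nonneg_right hBk (by positivity)
  have hfin : ((ZS X y k).card : ℝ) * (q ! : ℝ) ≤
      2 * ((p + q - 2).choose (k - 1) : ℝ) * (q ! : ℝ) := by
    have h9 := mul_le_mul_of_nonneg_right h6 hq0.le
    rw [hsum]
    refine (hle.trans (add_le_add_right hBk2 _)).trans (le_trans (le_of_eq ?_) h9)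
    ring
  have hlast := le_of_mul_le_mul_right hfin hq0
  exact_mod_cast hlast

end Pool.Agent.helper63.NM
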